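import Mathlib
import Pool.Agent.K6.H22.Bad

/-!
Bad triangles in Hilbert space. The definitions used in the statement (`H` is the Hilbert space of
square-summable real sequences, `BadTriangle`, `PropertyP`) are in `Pool/Agent/K6/H22/Bad.lean`.

For `δ < 1` the points are the elements of a large power of the vertex set of a regular polygon.
By concentration of measure a dense subset contains `y` and points very close to the two rotations
of `y` by one step in all coordinates. For `δ ≥ 1` a bad triangle is a point, its translate by a unit
vector and the midpoint, and the square of the norm modulo 4 separates such triples.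
-/

set_option autoImplicit false

namespace Pool.Agent.Results.MP_8cfbc5_co.DeltaStar

open Pool.Agent.K6.H22.BadTri

/-- For `δ > 0`, property `P(δ)` fails if and only if `δ < 1`. So the threshold `δ*` is `1`, and
`P(δ*)` holds: there is no largest `δ` for which `P(δ)` fails. -/
theorem result : (∀ δ : ℝ, 0 < δ → (¬ PropertyP δ ↔ δ < 1)) ∧
    IsLUB {δ : ℝ | 0 < δ ∧ ¬ PropertyP δ} 1 ∧ PropertyP 1 := by
  have h1 : ∀ δ : ℝ, 0 < δ → (¬ PropertyP δ ↔ δ < 1) := by
    intro δ hδ
    constructor
    · intro h
      by_contra hcon
      rw [not_lt] at hcon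
      exact h (holds hcon)
    · intro h
      exact fails hδ h
  refine ⟨h1, ⟨?_, ?_⟩, holds le_rfl⟩
  · rintro δ ⟨h0, h⟩
    exact ((h1 δ h0).mp h).le
  · intro b hb
    by_contra hcon
    rw [not_le] at hcon
    have hmax : max b (1 / 2) < 1 := max_lt hcon (by norm_num)
    obtain ⟨c, hc1, hc2⟩ := exists_between hmax
    have hc0 : 0 < c := by
      have := le_max_right b (1 / 2 : ℝ)
      linarith
    have := hb ⟨hc0, (h1 c hc0).mpr hc2⟩
    have h3 := le_max_left b (1 / 2 : ℝ)
    linarith

end Pool.Agent.Results.MP_8cfbc5_co.DeltaStar
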